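import Pool.Agent.P.MP_95bcfc_an.Stmt

set_option autoImplicit false

open scoped MatrixGroups Topology

namespace Pool.Agent.P.MP_95bcfc_an

/-- The Moebius map of `M` sends the real number `x` to the real number `y`. -/
def Sends (M : SL(2, ℝ)) (x y : ℝ) : Prop := y * (M 1 0 * x + M 1 1) = M 0 0 * x + M 0 1

/-- On some fixed interval, elements of `G` agree with the Moebius maps of free pairs of matrices
that are arbitrarily close to the identity. -/
def LocallyFree (G : Subgroup (ℝ ≃o ℝ)) : Prop :=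
  ∃ a b : ℝ, a < b ∧ ∀ ε : ℝ, 0 < ε → ∃ M : Fin 2 → SL(2, ℝ),
    Function.Injective (FreeGroup.lift M) ∧ ∀ k,
      (∀ i j, |M k i j - (1 : SL(2, ℝ)) i j| < ε) ∧
        ∃ g ∈ G, ∀ x ∈ Set.Icc a b, Sends (M k) x (g x)

/-- The entries of `M` lie in `A`. -/
def EntriesIn (A : Subring ℝ) (M : SL(2, ℝ)) : Prop := ∀ i j, M i j ∈ A

/-- `M` is hyperbolic. -/
def Hyperbolic (M : SL(2, ℝ)) : Prop := 2 < |M 0 0 + M 1 1|

/-- Monod's group `H(A)`: increasing homeomorphisms of the line that are piecewise in `PSL₂(A)`,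
with finitely many break points, each of them (the point at infinity included) fixed by a
hyperbolic element of `PSL₂(A)`. -/
def Monod (A : Subring ℝ) : Subgroup (ℝ ≃o ℝ) := Subgroup.closure {g | ∃ B : Finset ℝ,
  (∀ x ∈ B, ∃ M, EntriesIn A M ∧ Hyperbolic M ∧ Sends M x x) ∧
  (∀ x ∉ B, ∃ M, EntriesIn A M ∧ ∀ᶠ y in 𝓝 x, Sends M y (g y)) ∧
  ((∃ M, EntriesIn A M ∧ Hyperbolic M ∧ M 1 0 = 0) ∨
    ∃ M, EntriesIn A M ∧ ∀ᶠ y in Filter.cocompact ℝ, Sends M y (g y))}

/-- The generator `b` of the Lodha-Moore group. -/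
noncomputable def lmB (t : ℝ) : ℝ :=
  if t ≤ 0 then t else if t ≤ 1 / 2 then t / (1 - t) else if t ≤ 1 then 3 - 1 / t else t + 1

/-- The generator `c` of the Lodha-Moore group. -/
noncomputable def lmC (t : ℝ) : ℝ := if 0 ≤ t ∧ t ≤ 1 then 2 * t / (1 + t) else t

/-- The Lodha-Moore group `G₀`, generated by `t + 1`, `b` and `c`. -/
def LodhaMoore : Subgroup (ℝ ≃o ℝ) :=
  Subgroup.closure {g | (∀ t, g t = t + 1) ∨ (∀ t, g t = lmB t) ∨ ∀ t, g t = lmC t}

end Pool.Agent.P.MP_95bcfc_an
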