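import Mathlib

set_option autoImplicit false
set_option linter.style.haveILetI false

open scoped MatrixGroups Matrix IntermediateField Pointwise
open Filter

namespace Pool.Agent.P.MP_95bcfc_an.Proj

/-- two matrices that tend to the identity with `z` -/
def pr2 {R : Type} [CommRing R] (z : R) : Fin 2 → SL(2, R) :=
  ![⟨!![1 + z * z, z; z, 1], by simp [Matrix.det_fin_two]⟩,
    ⟨!![1, z; z, 1 + z * z], by simp [Matrix.det_fin_two]⟩]

theorem map_pr2 {R R' : Type} [CommRing R] [CommRing R'] (f : R →+* R') (z : R) :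
    (Matrix.SpecialLinearGroup.map f).comp (FreeGroup.lift (pr2 z)) =
      FreeGroup.lift (pr2 (f z)) := by
  ext k i j
  simp only [MonoidHom.comp_apply, FreeGroup.lift_apply_of]
  change f (pr2 z k i j) = _
  fin_cases k <;> fin_cases i <;> fin_cases j <;> simp [pr2]

section PingPong

variable {K : Type} [Field K] (v : AbsoluteValue K ℝ)

theorem big {x y z : K} (h : v (x - z * y) ≤ v y) (hz : 3 ≤ v z) : 2 * v y ≤ v x := by
  have h1 := v.sub_le_add x (x - z * y)
  rw [sub_sub_cancel, v.map_mul] at h1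
  nlinarith [v.nonneg y]

theorem big' {x y z : K} (h : v (x + z * y) ≤ v y) (hz : 3 ≤ v z) : 2 * v y ≤ v x :=
  big v (z := -z) (by simpa using h) (by simpa using hz)

theorem sep {x y z : K} (h : v (x - z * y) < v y) (h' : v (x + z * y) ≤ v y)
    (hz : 2 ≤ v 2 * v z) : False := by
  have h1 := v.sub_le_add (x + z * y) (x - z * y)
  rw [show x + z * y - (x - z * y) = 2 * z * y by ring, v.map_mul, v.map_mul] at h1
  nlinarith [v.nonneg y]

theorem ping {z : K} (h3 : 3 ≤ v z) (h2 : 2 ≤ v 2 * v z) :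
    Function.Injective (FreeGroup.lift (pr2 z)) := by
  letI : MulAction SL(2, K) {p : Fin 2 → K // p ≠ 0} :=
    { smul := fun M p => ⟨M.1 *ᵥ p.1, fun h => p.2 (by
        have := congrArg (fun q => (M⁻¹).1 *ᵥ q) h
        simpa only [Matrix.mulVec_mulVec, ← Matrix.SpecialLinearGroup.coe_mul, inv_mul_cancel,
          Matrix.SpecialLinearGroup.coe_one, Matrix.one_mulVec, Matrix.mulVec_zero] using this)⟩
      one_smul := fun p => Subtype.ext (Matrix.one_mulVec _)
      mul_smul := fun M N p => Subtype.ext (Matrix.mulVec_mulVec p.1 M.1 N.1).symm }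
  have hs : ∀ (M : SL(2, K)) (p : {p : Fin 2 → K // p ≠ 0}) i,
      (M • p).1 i = M i 0 * p.1 0 + M i 1 * p.1 1 := fun M p i => by
    change (M.1 *ᵥ p.1) i = _
    simp [Matrix.mulVec, dotProduct, Fin.sum_univ_two]
  let X : Fin 2 → Set {p : Fin 2 → K // p ≠ 0} :=
    ![{p | v (p.1 0 - z * p.1 1) < v (p.1 1)}, {p | v (p.1 1 - z * p.1 0) < v (p.1 0)}]
  let Y : Fin 2 → Set {p : Fin 2 → K // p ≠ 0} := fun i => {p | pr2 z i • p ∉ X i}
  have y0 : ∀ p ∈ Y 0, v (p.1 1 + z * p.1 0) ≤ v (p.1 0) := fun p hp => by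
    have : ¬ v (((pr2 z 0 • p).1 0) - z * (pr2 z 0 • p).1 1) < v ((pr2 z 0 • p).1 1) := hp
    rw [hs, hs, not_lt, show (pr2 z 0 : SL(2, K)) 1 0 = z from rfl,
      show (pr2 z 0 : SL(2, K)) 1 1 = 1 from rfl, show (pr2 z 0 : SL(2, K)) 0 1 = z from rfl,
      show (pr2 z 0 : SL(2, K)) 0 0 = 1 + z * z from rfl] at this
    ring_nf at this ⊢
    exact this
  have y1 : ∀ p ∈ Y 1, v (p.1 0 + z * p.1 1) ≤ v (p.1 1) := fun p hp => by
    have : ¬ v (((pr2 z 1 • p).1 1) - z * (pr2 z 1 • p).1 0) < v ((pr2 z 1 • p).1 0) := hp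
    rw [hs, hs, not_lt, show (pr2 z 1 : SL(2, K)) 1 0 = z from rfl,
      show (pr2 z 1 : SL(2, K)) 0 0 = 1 from rfl, show (pr2 z 1 : SL(2, K)) 0 1 = z from rfl,
      show (pr2 z 1 : SL(2, K)) 1 1 = 1 + z * z from rfl] at this
    ring_nf at this ⊢
    exact this
  have x0 : ∀ p ∈ X 0, v (p.1 0 - z * p.1 1) < v (p.1 1) := fun p hp => hp
  have x1 : ∀ p ∈ X 1, v (p.1 1 - z * p.1 0) < v (p.1 0) := fun p hp => hp
  have nz : ∀ p : {p : Fin 2 → K // p ≠ 0}, 2 * v (p.1 0) ≤ v (p.1 1) →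
      2 * v (p.1 1) ≤ v (p.1 0) → False := fun p a b => p.2 (by
    have c0 := v.nonneg (p.1 0)
    have c1 := v.nonneg (p.1 1)
    funext i
    fin_cases i
    · exact v.eq_zero.1 (show v (p.1 0) = 0 by linarith)
    · exact v.eq_zero.1 (show v (p.1 1) = 0 by linarith))
  have pw : ∀ {Z : Fin 2 → Set {p : Fin 2 → K // p ≠ 0}}, Disjoint (Z 0) (Z 1) →
      Pairwise (Function.onFun Disjoint Z) := fun h i j hij => by
    fin_cases i <;> fin_cases j
    · exact absurd rfl hij
    · exact h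
    · exact h.symm
    · exact absurd rfl hij
  refine FreeGroup.injective_lift_of_ping_pong (pr2 z) X Y (fun i => ?_)
    (pw (Set.disjoint_left.2 fun p a b => nz p (big v (x1 p b).le h3) (big v (x0 p a).le h3)))
    (pw (Set.disjoint_left.2 fun p a b => nz p (big' v (y0 p a) h3) (big' v (y1 p b) h3)))
    (fun i j => Set.disjoint_left.2 fun p a b => ?_) (fun i => ?_) fun i => ?_
  · fin_cases i
    · exact ⟨⟨![z, 1], fun h => by simpa using congrFun h 1⟩, by simp [X]⟩
    · exact ⟨⟨![1, z], fun h => by simpa using congrFun h 0⟩, by simp [X]⟩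
  · fin_cases i <;> fin_cases j
    · exact nz p (big' v (y0 p b) h3) (big v (x0 p a).le h3)
    · exact sep v (x0 p a) (y1 p b) h2
    · exact sep v (x1 p a) (y0 p b) h2
    · exact nz p (big v (x1 p a).le h3) (big' v (y1 p b) h3)
  · rintro _ ⟨p, hp, rfl⟩
    exact not_not.1 hp
  · rintro _ ⟨p, hp, rfl⟩
    change pr2 z i • (pr2 z i)⁻¹ • p ∉ X i
    rwa [smul_inv_smul]

theorem free_of_place {R : Type} [CommRing R] (ι : R →+* ℝ) (hι : Function.Injective ι)
    (φ : R →+* K) {x : R} (h1 : 1 < v (φ x)) (h2 : (2 : K) ≠ 0) :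
    ∀ᶠ n in atTop, Function.Injective (FreeGroup.lift (pr2 (ι x ^ n))) := by
  have ht := tendsto_pow_atTop_atTop_of_one_lt h1
  have h0 : 0 < v 2 := v.pos h2
  filter_upwards [ht.eventually_ge_atTop 3, ht.eventually_ge_atTop (2 / v 2)] with n a b
  rw [← v.map_pow, ← map_pow] at a b
  have c := ping v a (by rwa [div_le_iff₀' h0] at b)
  rw [← map_pr2] at c
  rw [← map_pow, ← map_pr2]
  refine Function.Injective.comp (g := Matrix.SpecialLinearGroup.map ι) (fun M N h => ?_)
    (Function.Injective.of_comp (f := Matrix.SpecialLinearGroup.map φ) c)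
  ext i j
  exact hι (congrArg (fun A : SL(2, ℝ) => A i j) h)

end PingPong

open NumberField in
theorem free_pow {t : ℝ} (h0 : 0 < t) (h1 : t < 1) :
    ∀ᶠ n in atTop, Function.Injective (FreeGroup.lift (pr2 (t ^ n))) := by
  by_cases ht : IsAlgebraic ℚ t
  · haveI : NumberField ℚ⟮t⟯ :=
      { to_finiteDimensional := IntermediateField.adjoin.finiteDimensional ht.isIntegral }
    set x := IntermediateField.AdjoinSimple.gen ℚ t with hx
    have hxt : algebraMap ℚ⟮t⟯ ℝ x = t := IntermediateField.AdjoinSimple.algebraMap_gen ℚ t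
    have hx0 : x ≠ 0 := fun h => h0.ne' (by rw [← hxt, h, map_zero])
    have : ∃ v : AbsoluteValue ℚ⟮t⟯ ℝ, 1 < v x := by
      by_contra hc
      push Not at hc
      classical
      have hp := prod_abs_eq_one hx0
      let w0 : InfinitePlace ℚ⟮t⟯ := InfinitePlace.mk (Complex.ofRealHom.comp (algebraMap _ ℝ))
      have a1 : w0 x = t := by
        rw [InfinitePlace.apply, RingHom.comp_apply, hxt]
        simpa using h0.le
      have a2 : ∏ w : InfinitePlace ℚ⟮t⟯, w x ^ w.mult < 1 := by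
        rw [← Finset.mul_prod_erase _ _ (Finset.mem_univ w0), a1]
        exact mul_lt_one_of_nonneg_of_lt_one_left (by positivity)
          (pow_lt_one₀ h0.le h1 InfinitePlace.mult_pos.ne')
          (Finset.prod_le_one (fun w _ => by positivity) fun w _ =>
            pow_le_one₀ (apply_nonneg _ _) (hc w.1))
      have a3 : 0 ≤ ∏ᶠ w : FinitePlace ℚ⟮t⟯, w x ∧ ∏ᶠ w : FinitePlace ℚ⟮t⟯, w x ≤ 1 :=
        finprod_induction (fun r : ℝ => 0 ≤ r ∧ r ≤ 1) ⟨zero_le_one, le_rfl⟩
          (fun a b ha hb => ⟨mul_nonneg ha.1 hb.1, mul_le_one₀ ha.2 hb.1 hb.2⟩)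
          fun w => ⟨apply_nonneg _ _, hc w.1⟩
      exact (mul_lt_one_of_nonneg_of_lt_one_left (Finset.prod_nonneg fun w _ => by positivity)
        a2 a3.2).ne hp
    obtain ⟨v, hv⟩ := this
    have := free_of_place v (algebraMap ℚ⟮t⟯ ℝ) (RingHom.injective _) (RingHom.id _) (x := x) hv
      two_ne_zero
    rwa [hxt] at this
  · have := free_of_place (K := ℝ) AbsoluteValue.abs (Polynomial.aeval (R := ℚ) t).toRingHom
      (transcendental_iff_injective.1 ht) (Polynomial.aeval (R := ℚ) (2 : ℝ)).toRingHom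
      (x := Polynomial.X) (by simp) two_ne_zero
    simpa using this

end Pool.Agent.P.MP_95bcfc_an.Proj
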