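import Pool.Agent.P.MP_95bcfc_an.EM.Transfer2
import Pool.Agent.P.MP_95bcfc_an.Induce

set_option autoImplicit false
set_option linter.unusedSectionVars false
set_option linter.deprecated false
set_option linter.style.haveILetI false

open scoped InnerProductSpace ComplexConjugate ENNReal
open MeasureTheory

namespace Pool.Agent.P.MP_95bcfc_an.Proj

open EM

variable {W X Λ : Type} [Group W] [Group Λ] [MeasurableSpace X] [MulAction W X]
  [MeasurableConstSMul W X] (ν : Measure X) [IsProbabilityMeasure ν]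

/-- the translate of the measure -/
noncomputable def nu (g : W) : Measure X := ν.map fun x => g • x

instance (g : W) : IsProbabilityMeasure (nu ν g) :=
  Measure.isProbabilityMeasure_map (measurable_const_smul g).aemeasurable

theorem nu_mul (h g : W) : nu ν (h * g) = (nu ν g).map fun x => h • x := by
  rw [nu, nu, Measure.map_map (measurable_const_smul h) (measurable_const_smul g)]
  congr 1
  funext x
  exact mul_smul h g x

theorem nu_one : nu ν (1 : W) = ν := by simp [nu]

theorem exists_dom [Countable W] : ∃ m : Measure X, IsFiniteMeasure m ∧ (∀ g : W, nu ν g ≪ m) ∧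
    ∀ h : W, (m.map fun x => h • x) ≪ m := by
  obtain ⟨c, hc, hs⟩ := ENNReal.exists_pos_sum_of_countable' one_ne_zero W
  have h1 : ∀ g : W, nu ν g ≪ Measure.sum fun g => c g • nu ν g := fun g =>
    Measure.absolutelyContinuous_sum_right g (Measure.absolutelyContinuous_smul (hc g).ne')
  refine ⟨Measure.sum fun g => c g • nu ν g, ⟨?_⟩, h1, fun h => ?_⟩
  · rw [Measure.sum_apply _ MeasurableSet.univ]
    simpa using hs.trans ENNReal.one_lt_top
  · rw [Measure.map_sum (measurable_const_smul h).aemeasurable]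
    refine Measure.absolutelyContinuous_sum_left fun g => ?_
    rw [Measure.map_smul, ← nu_mul]
    exact (h1 _).smul_left _

variable (m : Measure X) [IsFiniteMeasure m]

/-- the square root of the density -/
noncomputable def psi (g : W) (x : X) : ℝ := Real.sqrt ((nu ν g).rnDeriv m x).toReal

theorem meas_psi (g : W) : Measurable (psi ν m g) :=
  (Measure.measurable_rnDeriv _ _).ennreal_toReal.sqrt

theorem psi_nonneg (g : W) (x : X) : 0 ≤ psi ν m g x := Real.sqrt_nonneg _

theorem psi_sq (g : W) (x : X) : psi ν m g x * psi ν m g x = ((nu ν g).rnDeriv m x).toReal :=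
  Real.mul_self_sqrt ENNReal.toReal_nonneg

theorem int_psi (g g' : W) : Integrable (fun x => psi ν m g x * psi ν m g' x) m := by
  refine ((Measure.integrable_toReal_rnDeriv (μ := nu ν g) (ν := m)).add
    (Measure.integrable_toReal_rnDeriv (μ := nu ν g') (ν := m))).mono'
    ((meas_psi ν m g).mul (meas_psi ν m g')).aestronglyMeasurable
    (Filter.Eventually.of_forall fun x => ?_)
  rw [Real.norm_of_nonneg (mul_nonneg (psi_nonneg ν m g x) (psi_nonneg ν m g' x)), Pi.add_apply,
    ← psi_sq, ← psi_sq]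
  nlinarith [sq_nonneg (psi ν m g x - psi ν m g' x), psi_nonneg ν m g x, psi_nonneg ν m g' x]

variable {ν m}

theorem psi_inv (h1 : ∀ g : W, nu ν g ≪ m) (h2 : ∀ h : W, (m.map fun x => h • x) ≪ m)
    (h g g' : W) (F : X → ℂ) :
    ∫ x, (psi ν m (h * g) x * psi ν m (h * g') x) • F x ∂m =
      ∫ x, (psi ν m g x * psi ν m g' x) • F (h • x) ∂m := by
  have he : MeasurableEmbedding fun x : X => h • x := measurableEmbedding_const_smul h
  set m' := m.map fun x => h • x with hm'
  have a1 : ∀ g : W, nu ν (h * g) ≪ m' := fun g => by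
    rw [nu_mul]
    exact (h1 g).map he.measurable
  have a2 := integral_rnDeriv_smul (h2 h)
    (f := fun x => (psi ν m' (h * g) x * psi ν m' (h * g') x) • F x)
  rw [he.integral_map] at a2
  refine (integral_congr_ae ?_).trans (a2.trans (integral_congr_ae ?_))
  · filter_upwards [Measure.rnDeriv_mul_rnDeriv (κ := m) (a1 g),
      Measure.rnDeriv_mul_rnDeriv (κ := m) (a1 g')] with x e1 e2
    rw [smul_smul, psi, psi, psi, psi, ← e1, ← e2, Pi.mul_apply, Pi.mul_apply, ENNReal.toReal_mul,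
      ENNReal.toReal_mul, Real.sqrt_mul ENNReal.toReal_nonneg, Real.sqrt_mul ENNReal.toReal_nonneg]
    congr 1
    have := Real.mul_self_sqrt (ENNReal.toReal_nonneg (a := m'.rnDeriv m x))
    linear_combination (√((nu ν (h * g)).rnDeriv m' x).toReal *
      √((nu ν (h * g')).rnDeriv m' x).toReal) * this
  · filter_upwards [he.rnDeriv_map (nu ν g) m, he.rnDeriv_map (nu ν g') m] with x e1 e2
    rw [psi, psi, psi, psi, nu_mul, nu_mul, e1, e2]

theorem aff_self (h1 : ∀ g : W, nu ν g ≪ m) (g : W) : ∫ x, psi ν m g x * psi ν m g x ∂m = 1 := by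
  simp only [psi_sq]
  rw [Measure.integral_toReal_rnDeriv (h1 g), probReal_univ]

theorem aff_ge (h1 : ∀ g : W, nu ν g ≪ m) {g : W} {δ : ℝ}
    (hδ : ∀ P, MeasurableSet P → ν.real P ≤ (nu ν g).real P + δ) :
    1 - δ ≤ ∫ x, psi ν m (1 : W) x * psi ν m g x ∂m := by
  set P := {x | psi ν m g x ≤ psi ν m (1 : W) x} with hP
  have hm : MeasurableSet P := measurableSet_le (meas_psi ν m g) (meas_psi ν m 1)
  rw [← integral_add_compl hm (int_psi ν m 1 g)]
  have a1 : (nu ν g).real P ≤ ∫ x in P, psi ν m (1 : W) x * psi ν m g x ∂m := by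
    rw [← Measure.setIntegral_toReal_rnDeriv (h1 g)]
    refine setIntegral_mono_on Measure.integrable_toReal_rnDeriv.integrableOn
      (int_psi ν m 1 g).integrableOn hm fun x hx => ?_
    rw [← psi_sq]
    exact mul_le_mul_of_nonneg_right hx (psi_nonneg ν m g x)
  have a2 : ν.real Pᶜ ≤ ∫ x in Pᶜ, psi ν m (1 : W) x * psi ν m g x ∂m := by
    rw [← nu_one (W := W) ν, ← Measure.setIntegral_toReal_rnDeriv (h1 1), nu_one]
    refine setIntegral_mono_on Measure.integrable_toReal_rnDeriv.integrableOn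
      (int_psi ν m 1 g).integrableOn hm.compl fun x hx => ?_
    rw [← nu_one (W := W) ν, ← psi_sq, nu_one]
    exact mul_le_mul_of_nonneg_left (not_le.1 (show ¬ psi ν m g x ≤ psi ν m (1 : W) x from hx)).le (psi_nonneg ν m 1 x)
  have a3 := probReal_add_probReal_compl (μ := ν) hm
  linarith [hδ P hm]

variable {L : Type} [NormedAddCommGroup L] [InnerProductSpace ℂ L] [CompleteSpace L]
  (S : Sys W W X) (σ : F2 →* unitary (L →L[ℂ] L))

variable (ν m) in
/-- the integrand of the kernel -/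
noncomputable def kf (y y' : W × L) (x : X) : ℂ :=
  (psi ν m y.1 x * psi ν m y'.1 x) • S.κ σ x y.1 y'.1 y.2 y'.2

theorem int_kf (y y' : W × L) : Integrable (kf ν m S σ y y') m := by
  refine ((int_psi ν m y.1 y'.1).mul_const (‖y.2‖ * ‖y'.2‖)).mono'
    (((meas_psi ν m _).mul (meas_psi ν m _)).smul (Sys.meas_κ σ _ _ _ _)).aestronglyMeasurable
    (Filter.Eventually.of_forall fun x => ?_)
  have h0 := mul_nonneg (psi_nonneg ν m y.1 x) (psi_nonneg ν m y'.1 x)
  rw [kf, norm_smul, Real.norm_of_nonneg h0]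
  exact mul_le_mul_of_nonneg_left (Sys.norm_κ_le σ _ _ _ _ _) h0

theorem exists_rep (h1 : ∀ g : W, nu ν g ≪ m) (h2 : ∀ h : W, (m.map fun x => h • x) ≪ m)
    (ρ : Λ →* unitary (L →L[ℂ] L))
    (hc : ∀ g h, Commute (σ g : L →L[ℂ] L) (ρ h : L →L[ℂ] L)) :
    ∃ (R : Rep (W × Λ)) (e : W × L → R.H),
      (∀ y y', ⟪e y, e y'⟫_ℂ = ∫ x, kf ν m S σ y y' x ∂m) ∧
      ∀ γ l g ξ, (R.π (γ, l) : R.H →L[ℂ] R.H) (e (g, ξ)) = e (γ * g, (ρ l : L →L[ℂ] L) ξ) := by
  classical
  letI act : MulAction (W × Λ) (W × L) :=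
    { smul := fun p y => (p.1 * y.1, (ρ p.2 : L →L[ℂ] L) y.2)
      one_smul := fun y => by
        change ((1 : W × Λ).1 * y.1, (ρ (1 : W × Λ).2 : L →L[ℂ] L) y.2) = y
        simp
      mul_smul := fun g h y => by
        change ((g * h).1 * y.1, (ρ (g * h).2 : L →L[ℂ] L) y.2) =
          (g.1 * (h.1 * y.1), (ρ g.2 : L →L[ℂ] L) ((ρ h.2 : L →L[ℂ] L) y.2))
        simp [mul_assoc] }
  have hact : ∀ (p : W × Λ) (y : W × L), p • y = (p.1 * y.1, (ρ p.2 : L →L[ℂ] L) y.2) :=
    fun _ _ => rfl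
  obtain ⟨R, e, a1, a2, -⟩ := gns (Δ := W × Λ) (fun y y' => ∫ x, kf ν m S σ y y' x ∂m)
    (fun y y' => by
      rw [← integral_conj]
      refine integral_congr_ae (Filter.Eventually.of_forall fun x => ?_)
      obtain ⟨C, cl, φ, hp⟩ := Sys.κ_pot (S := S) σ x
      simp only [kf, hp, Complex.real_smul, map_mul, Complex.conj_ofReal]
      by_cases h : cl y.1 = cl y'.1
      · rw [if_pos h, if_pos h.symm, inner_conj_symm, mul_comm (psi ν m y.1 x)]
      · rw [if_neg h, if_neg fun h' => h h'.symm]; simp)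
    (fun s c => by
      have e1 : ∑ y ∈ s, ∑ y' ∈ s, conj (c y) * c y' * ∫ x, kf ν m S σ y y' x ∂m =
          ∫ x, ∑ y ∈ s, ∑ y' ∈ s, conj (c y) * c y' * kf ν m S σ y y' x ∂m := by
        rw [integral_finset_sum _ fun y _ => integrable_finset_sum _ fun y' _ =>
          (int_kf S σ y y').const_mul _]
        refine Finset.sum_congr rfl fun y _ => ?_
        rw [integral_finset_sum _ fun y' _ => (int_kf S σ y y').const_mul _]
        exact Finset.sum_congr rfl fun y' _ => (integral_const_mul _ _).symm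
      rw [e1]
      have e2 := integral_re (μ := m) (𝕜 := ℂ) (integrable_finset_sum s fun y _ =>
        integrable_finset_sum s fun y' _ => (int_kf (ν := ν) S σ y y').const_mul
          (conj (c y) * c y'))
      refine le_of_le_of_eq (integral_nonneg fun x => ?_) e2
      obtain ⟨C, cl, φ, hp⟩ := Sys.κ_pot (S := S) σ x
      refine (sum_class_nonneg s (fun y => cl y.1)
        fun y => (c y * psi ν m y.1 x) • (σ (φ y.1) : L →L[ℂ] L) y.2).trans (le_of_eq ?_)
      change _ = Complex.re _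
      congr 1
      refine Finset.sum_congr rfl fun y _ => Finset.sum_congr rfl fun y' _ => ?_
      rw [kf, hp, inner_smul_left, inner_smul_right, map_mul, Complex.conj_ofReal,
        Complex.real_smul]
      push_cast
      split_ifs <;> ring)
    (fun p y y' => by
      simp only [kf, hact]
      rw [psi_inv h1 h2]
      refine integral_congr_ae (Filter.Eventually.of_forall fun x => ?_)
      simp only [Sys.κ_smul]
      congr 1
      simp only [Sys.κ]
      split_ifs with h
      · rw [← ContinuousLinearMap.mul_apply, (hc _ _).eq, ContinuousLinearMap.mul_apply,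
          uni_inner_map]
      · rfl)
  exact ⟨R, e, a1, fun γ l g ξ => a2 (γ, l) (g, ξ)⟩

theorem int_kf_rel (h1 : ∀ g : W, nu ν g ≪ m) {g g' : W} {w : F2}
    (hr : ∀ᵐ x ∂(nu ν g'), S.Rel x g w g') (ξ ξ' : L) :
    ∫ x, kf ν m S σ (g, ξ) (g', ξ') x ∂m =
      ((∫ x, psi ν m g x * psi ν m g' x ∂m : ℝ) : ℂ) * ⟪ξ, (σ w : L →L[ℂ] L) ξ'⟫_ℂ := by
  rw [← integral_complex_ofReal, ← integral_mul_const]
  rw [← Measure.withDensity_rnDeriv_eq _ _ (h1 g'),
    ae_withDensity_iff (Measure.measurable_rnDeriv _ _)] at hr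
  refine integral_congr_ae ?_
  filter_upwards [hr] with x hx
  by_cases h0 : (nu ν g').rnDeriv m x = 0
  · simp [kf, psi, h0]
  · rw [kf, Sys.κ_of_rel σ (hx h0), Complex.real_smul]

/-- two group elements that act like free generators on an almost invariant measure -/
theorem nuc_of_hell [Countable W] (hN : Nuc W Λ)
    (hyp : ∀ δ : ℝ, 0 < δ → ∃ (S : Sys W W X) (g : Fin 2 → W), ∀ k,
      (∀ᵐ x ∂(nu ν (g k)), S.Rel x 1 (FreeGroup.of k) (g k)) ∧
      ∀ P, MeasurableSet P → ν.real P ≤ (nu ν (g k)).real P + δ) : Nuc F2 Λ := by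
  classical
  refine transfer2 hN fun L _ _ _ σ ρ hc δ hδ => ?_
  obtain ⟨S, g, hg⟩ := hyp (δ ^ 2 / 2) (by positivity)
  obtain ⟨m, _, h1, h2⟩ := exists_dom (W := W) ν
  obtain ⟨R, e, he, hU⟩ := exists_rep S σ h1 h2 ρ hc
  have hs : ∀ (a : W) ξ ξ', ⟪e (a, ξ), e (a, ξ')⟫_ℂ = ⟪ξ, ξ'⟫_ℂ := fun a ξ ξ' => by
    rw [he, int_kf_rel S σ h1 (Filter.Eventually.of_forall fun x => Sys.rel_refl x a),
      aff_self h1]
    simp
  have hn : ∀ (a : W) ξ, ‖e (a, ξ)‖ = ‖ξ‖ := fun a ξ => by
    rw [@norm_eq_sqrt_re_inner ℂ, @norm_eq_sqrt_re_inner ℂ, hs]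
  let π := R.π.comp (MonoidHom.inl W Λ)
  have hπ : ∀ γ a ξ, (π γ : R.H →L[ℂ] R.H) (e (a, ξ)) = e (γ * a, ξ) := fun γ a ξ => by
    simpa [π] using hU γ 1 a ξ
  obtain ⟨V, hV, hVn⟩ := exists_clm (H := HD Unit R.H)
    (fun ξ => WithLp.toLp 2 fun _ => e (1, ξ)) fun ξ η => by simp [PiLp.inner_apply, hs]
  let w : Option (Fin 2) → W := fun k => k.elim 1 g
  have key : ∀ k ξ, ‖e (w k, ξ) - e (1, (σ (lab k) : L →L[ℂ] L) ξ)‖ ≤ δ * ‖ξ‖ := by
    intro k ξ
    cases k with
    | none => simp only [w, lab, Option.elim, map_one, OneMemClass.coe_one,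
        ContinuousLinearMap.one_apply, sub_self, norm_zero]; positivity
    | some k =>
      refine (sq_le_sq₀ (norm_nonneg _) (by positivity)).1 ?_
      simp only [w, lab, Option.elim]
      rw [norm_sub_rev, @norm_sub_sq ℂ, hn, hn, uni_norm, he, int_kf_rel S σ h1 (hg k).1,
        inner_self_eq_norm_sq_to_K, uni_norm]
      have a1 := mul_le_mul_of_nonneg_right (aff_ge h1 (hg k).2) (sq_nonneg ‖ξ‖)
      have a2 : RCLike.re ((((∫ x, psi ν m (1 : W) x * psi ν m (g k) x ∂m : ℝ) : ℂ)) *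
          ((‖ξ‖ : ℝ) : ℂ) ^ 2) = (∫ x, psi ν m (1 : W) x * psi ν m (g k) x ∂m) * ‖ξ‖ ^ 2 := by
        rw [← Complex.ofReal_pow, ← Complex.ofReal_mul]
        exact Complex.ofReal_re _
      erw [a2]
      nlinarith
  have hT : ∀ (a : W) (R' : Rep W) (v : HD Unit R'.H) (i : Unit), evM (und R'.π)
      (Matrix.of fun _ _ => MonoidAlgebra.single a 1) v i = (R'.π a : R'.H →L[ℂ] R'.H) (v ()) := by
    intro a R' v i
    simp [evM_apply]
  have hnorm : ∀ v : HD Unit R.H, ‖v‖ = ‖v ()‖ := fun v => by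
    rw [PiLp.norm_eq_of_L2]
    simp
  refine ⟨Unit, inferInstance, inferInstance,
    fun k => Matrix.of fun _ _ => MonoidAlgebra.single (w k) 1,
    fun k => Matrix.of fun _ _ => MonoidAlgebra.single (w k)⁻¹ 1, ⟨R.H, π⟩,
    R.π.comp (MonoidHom.inr W Λ), V, V, fun a l => ?_, hVn, fun l ξ => ?_, fun k R' u v => ?_,
    fun k ξ => ?_, fun k ξ => ?_⟩
  · change _ * _ = _ * _
    simp only [π, MonoidHom.comp_apply, ← Submonoid.coe_mul, ← MonoidHom.map_mul]
    simp
  · ext i
    rw [diag_apply, hV, hV]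
    simpa using hU 1 l 1 ξ
  · simp only [PiLp.inner_apply, hT, Finset.univ_unique, Finset.sum_singleton, map_inv]
    rw [uni_inner, inv_inv]
  · rw [hnorm, PiLp.sub_apply, hT (w k) ⟨R.H, π⟩, hV, hV]
    simpa [hπ] using key k ξ
  · have := key k ((σ (lab k)⁻¹ : L →L[ℂ] L) ξ)
    rw [uni_norm, ← ContinuousLinearMap.mul_apply, ← Submonoid.coe_mul, ← MonoidHom.map_mul,
      mul_inv_cancel, map_one, OneMemClass.coe_one, ContinuousLinearMap.one_apply] at this
    rw [hnorm, PiLp.sub_apply, hT (w k)⁻¹ ⟨R.H, π⟩, hV, hV, ← uni_norm (π (w k)), map_sub,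
      norm_sub_rev]
    simpa only [hπ, mul_inv_cancel, mul_one] using this

end Pool.Agent.P.MP_95bcfc_an.Proj
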