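import Pool.Agent.P.MP_95bcfc_an.Proj.Stmt
import Pool.Agent.P.MP_95bcfc_an.Proj.Hell

set_option autoImplicit false
set_option linter.unusedSectionVars false
set_option linter.deprecated false
set_option linter.style.haveILetI false

open scoped MatrixGroups Topology ENNReal NNReal
open MeasureTheory Filter Set

namespace Pool.Agent.P.MP_95bcfc_an.Proj

theorem det_eq (M : SL(2, ℝ)) : M 0 0 * M 1 1 - M 0 1 * M 1 0 = 1 := by
  have := M.det_coe
  rwa [Matrix.det_fin_two] at this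

theorem sends_one (x : ℝ) : Sends 1 x x := by simp [Sends]

theorem sends_mul {M N : SL(2, ℝ)} {x y z : ℝ} (h : Sends M y z) (h' : Sends N x y) :
    Sends (M * N) x z := by
  simp only [Sends, Matrix.SpecialLinearGroup.coe_mul, Matrix.mul_apply, Fin.sum_univ_two] at *
  linear_combination (N 1 0 * x + N 1 1) * h + (M 0 0 - z * M 1 0) * h'

theorem sends_inv {M : SL(2, ℝ)} {x y : ℝ} (h : Sends M x y) : Sends M⁻¹ y x := by
  simp only [Sends, Matrix.SpecialLinearGroup.coe_inv, Matrix.adjugate_fin_two, Matrix.of_apply,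
    Matrix.cons_val', Matrix.cons_val_zero, Matrix.cons_val_one, Matrix.cons_val_fin_one] at *
  linear_combination (-1 : ℝ) * h

theorem sq_eq_one {M : SL(2, ℝ)} {x : ℝ} (h : ∀ᶠ z in 𝓝 x, Sends M z z) : M * M = 1 := by
  obtain ⟨ε, hε, h1⟩ := Metric.eventually_nhds_iff.1 h
  have a0 := h1 (y := x) (by simpa using hε)
  have a1 := h1 (y := x + ε / 2) (by rw [Real.dist_eq, abs_lt]; constructor <;> linarith)
  have a2 := h1 (y := x - ε / 2) (by rw [Real.dist_eq, abs_lt]; constructor <;> linarith)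
  simp only [Sends] at a0 a1 a2
  have c0 : M 1 0 = 0 := by
    have : M 1 0 * (ε * ε / 2) = 0 := by linear_combination a1 + a2 - 2 * a0
    exact (mul_eq_zero.1 this).resolve_right (by positivity)
  rw [c0] at a0 a1
  have c1 : M 1 1 = M 0 0 := by
    have : (M 1 1 - M 0 0) * (ε / 2) = 0 := by linear_combination a1 - a0
    exact sub_eq_zero.1 ((mul_eq_zero.1 this).resolve_right (by positivity))
  have c2 : M 0 1 = 0 := by rw [c1] at a0; linear_combination -a0
  have hd := det_eq M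
  rw [c0, c1, c2] at hd
  ext i j
  fin_cases i <;> fin_cases j <;>
    simp [Matrix.mul_apply, Fin.sum_univ_two, c0, c1, c2] <;> linarith

theorem exists_pot' {G F : Type} [Group F] (r : G → F → G → Prop) (h1 : ∀ g, r g 1 g)
    (h2 : ∀ g w g', r g w g' → r g' w⁻¹ g)
    (h3 : ∀ g w g' w' g'', r g w g' → r g' w' g'' → r g (w * w') g'')
    (h4 : ∀ g w, r g w g → w = 1) : ∃ (C : Type) (cl : G → C) (φ : G → F), ∀ v w v',
      r v w v' ↔ cl v = cl v' ∧ w = (φ v)⁻¹ * φ v' := by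
  let s : Setoid G := ⟨fun v v' => ∃ w, r v w v', fun v => ⟨1, h1 v⟩,
    fun ⟨_, h⟩ => ⟨_, h2 _ _ _ h⟩, fun ⟨_, h⟩ ⟨_, h'⟩ => ⟨_, h3 _ _ _ _ _ h h'⟩⟩
  have a1 : ∀ v, ∃ w, r (Quotient.mk s v).out w v := fun v => Quotient.mk_out (s := s) v
  choose φ hφ using a1
  refine ⟨Quotient s, Quotient.mk s, φ, fun v w v' => ⟨fun h => ?_, fun h => ?_⟩⟩
  · have e : Quotient.mk s v = Quotient.mk s v' := Quotient.sound ⟨w, h⟩
    refine ⟨e, ?_⟩
    have a2 := h3 _ _ _ _ _ (hφ v) h
    rw [e] at a2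
    have a3 := h4 _ _ (h3 _ _ _ _ _ a2 (h2 _ _ _ (hφ v')))
    rw [mul_inv_eq_one] at a3
    rw [← a3, inv_mul_cancel_left]
  · have a2 := h2 _ _ _ (hφ v)
    rw [h.1] at a2
    rw [h.2]
    exact h3 _ _ _ _ _ a2 (hφ v')

variable {W Λ : Type} [Group W] [Group Λ] (φ : W →* (ℝ ≃o ℝ))

/-- the action on the line -/
@[reducible] def act : MulAction W ℝ where
  smul w x := φ w x
  one_smul x := by
    change φ 1 x = x
    simp
  mul_smul a b x := by
    change φ (a * b) x = φ a (φ b x)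
    simp

theorem app_mul (a b : W) (x : ℝ) : φ (a * b) x = φ a (φ b x) := by simp

/-- the germ of `g⁻¹ g'` is the Moebius map of `w` -/
def Rel (M : F2 →* SL(2, ℝ)) (x : ℝ) (g : W) (w : F2) (g' : W) : Prop :=
  ∀ᶠ z in 𝓝 (φ g'⁻¹ x), Sends (M w) z (φ (g⁻¹ * g') z)

theorem tends (x : ℝ) (g g' : W) :
    Tendsto (φ (g⁻¹ * g')) (𝓝 (φ g'⁻¹ x)) (𝓝 (φ g⁻¹ x)) := by
  have := (φ (g⁻¹ * g')).continuous.tendsto (φ g'⁻¹ x)
  rwa [← app_mul, mul_inv_cancel_right] at this

/-- the system of germs -/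
noncomputable def sys (M : F2 →* SL(2, ℝ)) (hM : Function.Injective M) :
    @Sys W W ℝ _ _ _ (act φ) :=
  letI := act φ
  { q := MonoidHom.id W
    χ := fun _ => 1
    χ_norm := fun _ _ => by simp
    χ_one := rfl
    χ_mul := fun _ _ _ => by simp
    Rel := Rel φ M
    pot := fun x => exists_pot' (Rel φ M x)
      (fun g => Eventually.of_forall fun z => by simpa using sends_one z)
      (fun g w g' h => ((tends φ x g' g).eventually h).mono fun z hz => by
        rw [← app_mul, mul_assoc, mul_inv_cancel_left, inv_mul_cancel, map_one] at hz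
        rw [map_inv M]
        exact sends_inv hz)
      (fun g w g' w' g'' h h' => (((tends φ x g' g'').eventually h).and h').mono fun z hz => by
        have := sends_mul hz.1 hz.2
        rwa [← app_mul, mul_assoc, mul_inv_cancel_left, ← map_mul] at this)
      (fun g w h => by
        have h1 : M w * M w = 1 := sq_eq_one (h.mono fun z hz => by simpa using hz)
        rw [← map_mul, ← map_one M] at h1
        exact (pow_eq_one_iff_left two_ne_zero).1 ((sq w).trans (hM h1)))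
    rel_meas := fun g w g' => (φ g'⁻¹).continuous.measurable
      (isOpen_setOf_eventually_nhds (p := fun z => Sends (M w) z (φ (g⁻¹ * g') z))).measurableSet
    rel_smul := fun h x g w g' hr => by
      change ∀ᶠ z in 𝓝 (φ (h * g')⁻¹ (φ h x)), Sends (M w) z (φ ((h * g)⁻¹ * (h * g')) z)
      rw [← app_mul, show (h * g')⁻¹ * h = g'⁻¹ by group,
        show (h * g)⁻¹ * (h * g') = g⁻¹ * g' by group]
      exact hr }

theorem vol_le {g : ℝ ≃o ℝ} {a b τ η : ℝ} (hτ : 0 ≤ τ) (hη : 0 ≤ η) (hab : a ≤ b)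
    (h1 : ∀ x ∈ Icc a b, ∀ y ∈ Icc a b, |g x - g y| ≤ (1 + τ) * |x - y|)
    (h2 : g a ≤ a + η) (h3 : b - η ≤ g b) (P : Set ℝ) :
    volume.real (Icc a b ∩ P) ≤ volume.real (Icc a b ∩ g ⁻¹' P) + (τ * (b - a) + 2 * η) := by
  set E := Icc a b ∩ g ⁻¹' P with hE
  have hfin : volume E ≠ ∞ := ((measure_mono inter_subset_left).trans_lt measure_Icc_lt_top).ne
  have hl : LipschitzOnWith (⟨1 + τ, by linarith⟩ : ℝ≥0) g E :=
    LipschitzOnWith.of_dist_le_mul fun x hx y hy => h1 x hx.1 y hy.1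
  have a1 := hl.hausdorffMeasure_image_le zero_le_one
  rw [hausdorffMeasure_real, ENNReal.rpow_one] at a1
  have a2 : volume (g '' E) ≠ ∞ := (a1.trans_lt (ENNReal.mul_lt_top ENNReal.coe_lt_top hfin.lt_top)).ne
  have a3 : volume.real (g '' E) ≤ (1 + τ) * volume.real E := by
    have := ENNReal.toReal_mono (ENNReal.mul_ne_top ENNReal.coe_ne_top hfin) a1
    rwa [ENNReal.toReal_mul] at this
  have a4 : volume.real E ≤ b - a := by
    rw [← Real.volume_real_Icc_of_le hab]
    exact measureReal_mono inter_subset_left measure_Icc_lt_top.ne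
  have a5 : Icc a b ∩ P ⊆ g '' E ∪ (Icc a (a + η) ∪ Icc (b - η) b) := by
    rintro x ⟨hx, hP⟩
    by_cases b1 : x ≤ a + η
    · exact Or.inr (Or.inl ⟨hx.1, b1⟩)
    by_cases b2 : b - η ≤ x
    · exact Or.inr (Or.inr ⟨b2, hx.2⟩)
    refine Or.inl ⟨g.symm x, ⟨⟨?_, ?_⟩, by simpa using hP⟩, by simp⟩
    · exact g.le_symm_apply.2 (by linarith)
    · exact g.symm_apply_le.2 (by linarith)
  have a6 := (measureReal_mono a5 (measure_union_ne_top a2 (measure_union_ne_top
    measure_Icc_lt_top.ne measure_Icc_lt_top.ne))).trans ((measureReal_union_le _ _).trans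
      (add_le_add le_rfl (measureReal_union_le _ _)))
  rw [Real.volume_real_Icc_of_le (by linarith), Real.volume_real_Icc_of_le (by linarith)] at a6
  nlinarith

theorem close {M : SL(2, ℝ)} {R τ : ℝ} (hR : 0 ≤ R) (hτ : τ ≤ 1 / 4)
    (h : ∀ i j, |M i j - (1 : SL(2, ℝ)) i j| < τ / (R + 1)) :
    (∀ x y, |x| ≤ R → Sends M x y → |y - x| ≤ 2 * (τ * (R + 1))) ∧
    ∀ x y x' y', |x| ≤ R → |x'| ≤ R → Sends M x y → Sends M x' y' →
      |y - y'| ≤ (1 + 4 * τ) * |x - x'| := by
  set ε := τ / (R + 1) with hε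
  have e1 : ε * (R + 1) = τ := div_mul_cancel₀ _ (by linarith)
  have h00 : |M 0 0 - 1| < ε := by simpa using h 0 0
  have h01 : |M 0 1| < ε := by simpa using h 0 1
  have h10 : |M 1 0| < ε := by simpa using h 1 0
  have h11 : |M 1 1 - 1| < ε := by simpa using h 1 1
  have hε0 : 0 < ε := (abs_nonneg _).trans_lt h01
  have hτ0 : 0 < τ := by nlinarith
  have hm : ∀ {p x : ℝ}, |p| < ε → |x| ≤ R → |p * x| ≤ ε * R := fun hp hx => by
    rw [abs_mul]
    exact mul_le_mul hp.le hx (abs_nonneg _) hε0.le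
  have hd : ∀ x, |x| ≤ R → |M 1 0 * x + M 1 1 - 1| ≤ τ := fun x hx => by
    rw [add_sub_assoc]
    exact (abs_add_le _ _).trans (by linarith [hm h10 hx])
  refine ⟨fun x y hx hs => ?_, fun x y x' y' hx hx' hs hs' => ?_⟩
  · have a1 : (y - x) * (M 1 0 * x + M 1 1) =
        (M 0 0 - 1) * x + M 0 1 - (M 1 0 * x + M 1 1 - 1) * x := by
      unfold Sends at hs
      linear_combination hs
    have a2 : |(y - x) * (M 1 0 * x + M 1 1)| ≤ τ * (R + 1) := by
      rw [a1]
      refine (abs_sub _ _).trans ((add_le_add (abs_add_le _ _) le_rfl).trans ?_)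
      have := mul_le_mul (hd x hx) hx (abs_nonneg _) hτ0.le
      rw [← abs_mul] at this
      linarith [hm h00 hx]
    have a3 := abs_le.1 (hd x hx)
    rw [abs_mul, abs_of_pos (a := M 1 0 * x + M 1 1) (by linarith)] at a2
    nlinarith [abs_nonneg (y - x)]
  · have a1 : (y - y') * ((M 1 0 * x + M 1 1) * (M 1 0 * x' + M 1 1)) = x - x' := by
      unfold Sends at hs hs'
      linear_combination (M 1 0 * x' + M 1 1) * hs - (M 1 0 * x + M 1 1) * hs' +
        (x - x') * det_eq M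
    have a3 := abs_le.1 (hd x hx)
    have a4 := abs_le.1 (hd x' hx')
    have a5 : (1 - τ) * (1 - τ) ≤ (M 1 0 * x + M 1 1) * (M 1 0 * x' + M 1 1) :=
      mul_le_mul (by linarith) (by linarith) (by linarith) (by linarith)
    have a6 : 1 ≤ (1 + 4 * τ) * ((M 1 0 * x + M 1 1) * (M 1 0 * x' + M 1 1)) := by
      refine le_trans ?_ (mul_le_mul_of_nonneg_left a5 (by linarith))
      nlinarith [mul_pos hτ0 hτ0, mul_pos hτ0 (mul_pos hτ0 hτ0)]
    rw [← a1, abs_mul, abs_of_pos (a := _ * _) (by nlinarith)]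
    nlinarith [abs_nonneg (y - y')]

theorem nuc_of_act [Countable W] {a b : ℝ} (hab : a < b)
    (h : ∀ ε : ℝ, 0 < ε → ∃ M : Fin 2 → SL(2, ℝ), Function.Injective (FreeGroup.lift M) ∧ ∀ k,
      (∀ i j, |M k i j - (1 : SL(2, ℝ)) i j| < ε) ∧ ∃ g, ∀ x ∈ Icc a b, Sends (M k) x (φ g x))
    (hN : Nuc W Λ) : Nuc F2 Λ := by
  letI := act φ
  haveI : MeasurableConstSMul W ℝ := ⟨fun g => (φ g).continuous.measurable⟩
  have hv : volume (Icc a b) ≠ 0 := by simpa using hab
  haveI := ProbabilityTheory.cond_isProbabilityMeasure_of_finite hv measure_Icc_lt_top.ne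
  refine nuc_of_hell (X := ℝ) (ν := ProbabilityTheory.cond volume (Icc a b)) hN fun δ hδ => ?_
  set R := |a| + |b| with hR
  have hR0 : 0 ≤ R := by positivity
  have hba : 0 < b - a := by linarith
  set τ := min (1 / 4) (δ * (b - a) / (4 * (b - a) + 4 * (R + 1))) with hτ
  have hτ0 : 0 < τ := by positivity
  have hτ1 : τ * (4 * (b - a) + 4 * (R + 1)) ≤ δ * (b - a) :=
    (le_div_iff₀ (by positivity)).1 (min_le_right _ _)
  obtain ⟨M, hM, hk⟩ := h (τ / (R + 1)) (by positivity)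
  choose hc g hg using hk
  have hx : ∀ x ∈ Icc a b, |x| ≤ R := fun x hx => by
    rw [abs_le]
    constructor <;> linarith [hx.1, hx.2, neg_abs_le a, le_abs_self b, abs_nonneg a, abs_nonneg b]
  refine ⟨sys φ _ hM, g, fun k => ⟨?_, fun P hP => ?_⟩⟩
  · refine (ae_map_iff (measurable_const_smul _).aemeasurable
      ((sys φ _ hM).rel_meas _ _ _)).2 ?_
    have a1 : ∀ᵐ x ∂(ProbabilityTheory.cond volume (Icc a b)), x ∈ Ioo a b := by
      refine Measure.ae_smul_measure ?_ _
      rw [← Measure.restrict_congr_set Ioo_ae_eq_Icc]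
      exact ae_restrict_mem measurableSet_Ioo
    filter_upwards [a1] with x hx'
    change ∀ᶠ z in 𝓝 (φ (g k)⁻¹ (φ (g k) x)),
      Sends (FreeGroup.lift M (FreeGroup.of k)) z (φ (1⁻¹ * g k) z)
    rw [← app_mul, inv_mul_cancel, map_one, FreeGroup.lift_apply_of, inv_one, one_mul]
    filter_upwards [Icc_mem_nhds hx'.1 hx'.2] with z hz using hg k z hz
  · obtain ⟨c1, c2⟩ := close hR0 (min_le_left _ _) (hc k)
    have ha : a ∈ Icc a b := left_mem_Icc.2 hab.le
    have hb : b ∈ Icc a b := right_mem_Icc.2 hab.le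
    have a1 := vol_le (g := φ (g k)) (τ := 4 * τ) (η := 2 * (τ * (R + 1))) (by positivity)
      (by positivity) hab.le
      (fun x hx1 y hy => c2 _ _ _ _ (hx x hx1) (hx y hy) (hg k x hx1) (hg k y hy))
      (by linarith [(abs_le.1 (c1 _ _ (hx a ha) (hg k a ha))).2])
      (by linarith [(abs_le.1 (c1 _ _ (hx b hb) (hg k b hb))).1]) P
    have a2 : ∀ Q, (ProbabilityTheory.cond volume (Icc a b)).real Q =
        (b - a)⁻¹ * volume.real (Icc a b ∩ Q) := fun Q => by
      rw [Measure.real, ProbabilityTheory.cond_apply measurableSet_Icc, ENNReal.toReal_mul,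
        ENNReal.toReal_inv, Real.volume_Icc, ENNReal.toReal_ofReal hba.le, Measure.real]
    rw [nu, map_measureReal_apply (measurable_const_smul _) hP, a2, a2, inv_mul_le_iff₀ hba,
      mul_add, mul_inv_cancel_left₀ hba.ne']
    exact a1.trans (add_le_add le_rfl (by linarith))

theorem nuc_of_loc {G : Subgroup (ℝ ≃o ℝ)} (hG : LocallyFree G) (π : W →* G)
    (hπ : Function.Surjective π) (hN : Nuc W Λ) : Nuc F2 Λ := by
  obtain ⟨a, b, hab, h⟩ := hG
  choose M hM hc g hg hs using fun n : ℕ => h (1 / (n + 1)) Nat.one_div_pos_of_nat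
  choose w hw using fun p : ℕ × Fin 2 => hπ ⟨g p.1 p.2, hg _ _⟩
  haveI : Countable (FreeGroup.lift w).range := (Set.countable_range _).to_subtype
  refine nuc_of_act (G.subtype.comp (π.comp (FreeGroup.lift w).range.subtype)) hab
    (fun ε hε => ?_) (hN.subgroup _)
  obtain ⟨n, hn⟩ := exists_nat_one_div_lt hε
  refine ⟨M n, hM n, fun k => ⟨fun i j => (hc n k i j).trans hn,
    ⟨w (n, k), FreeGroup.of (n, k), FreeGroup.lift_apply_of⟩, fun x hx => ?_⟩⟩
  simpa [hw] using hs n k x hx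

theorem main_loc {Γ : Type} [Group Γ] {G : Subgroup (ℝ ≃o ℝ)} (hG : LocallyFree G)
    (S : Subgroup Γ) (π : S →* G) (hπ : Function.Surjective π) (hK : Kirchberg Γ) :
    Kirchberg (FreeGroup (Fin 2)) :=
  nuc_of_loc hG π hπ ((nuc_of_loc hG π hπ (Nuc.subgroup hK S)).symm.subgroup S)

end Pool.Agent.P.MP_95bcfc_an.Proj
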