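import Pool.Agent.P.MP_95bcfc_an.Proj.Germ
import Pool.Agent.P.MP_95bcfc_an.Proj.Free

set_option autoImplicit false

open scoped MatrixGroups Topology
open Filter Set

namespace Pool.Agent.P.MP_95bcfc_an.Proj

theorem loc_of_pairs {G : Subgroup (ℝ ≃o ℝ)} {t : ℝ} (h0 : 0 < t) (h1 : t < 1) (Q : SL(2, ℝ))
    (h : ∀ n k, ∃ g ∈ G, ∀ x ∈ Icc (0 : ℝ) 1, Sends (Q⁻¹ * pr2 (t ^ n) k * Q) x (g x)) :
    LocallyFree G := by
  refine ⟨0, 1, one_pos, fun ε hε => ?_⟩
  have hc : ∀ k i j, ∀ᶠ n in atTop,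
      |(Q⁻¹ * pr2 (t ^ n) k * Q) i j - (1 : SL(2, ℝ)) i j| < ε := fun k i j => by
    have c1 : Continuous fun z : ℝ => (Q⁻¹ * pr2 z k * Q) i j := by
      have : ∀ a b, Continuous fun z : ℝ => pr2 z k a b := fun a b => by
        fin_cases k <;> fin_cases a <;> fin_cases b <;> simp [pr2] <;> fun_prop
      simp only [Matrix.SpecialLinearGroup.coe_mul, Matrix.mul_apply, Fin.sum_univ_two]
      fun_prop
    have c2 : pr2 (0 : ℝ) k = 1 := by
      ext a b
      fin_cases k <;> fin_cases a <;> fin_cases b <;> simp [pr2]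
    have c3 := (c1.tendsto 0).comp (tendsto_pow_atTop_nhds_zero_of_lt_one h0.le h1)
    rw [c2, mul_one, inv_mul_cancel] at c3
    exact (Metric.tendsto_nhds.1 c3 ε hε).mono fun n hn => by rwa [Real.dist_eq] at hn
  obtain ⟨n, a, b⟩ := ((free_pow h0 h1).and (eventually_all.2 fun k => eventually_all.2 fun i =>
    eventually_all.2 fun j => hc k i j)).exists
  refine ⟨fun k => Q⁻¹ * pr2 (t ^ n) k * Q, ?_, fun k => ⟨b k, h n k⟩⟩
  have : FreeGroup.lift (fun k => Q⁻¹ * pr2 (t ^ n) k * Q) =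
      (MulAut.conj Q⁻¹).toMonoidHom.comp (FreeGroup.lift (pr2 (t ^ n))) := by
    refine FreeGroup.ext_hom _ _ fun k => ?_
    simp
  rw [this]
  exact (MulAut.conj Q⁻¹).injective.comp a

theorem glue (u w : ℝ ≃o ℝ) {α β γ δ p q : ℝ} (hpq : p ≤ q) (hd : β * γ < α * δ)
    (h1 : 0 < γ * p + δ) (h2 : 0 < γ * q + δ) (hp : u p * (γ * p + δ) = α * p + β)
    (hq : w q * (γ * q + δ) = α * q + β) : ∃ g : ℝ ≃o ℝ, (∀ x, x ≤ p → g x = u x) ∧
      (∀ x ∈ Icc p q, g x = (α * x + β) / (γ * x + δ)) ∧ ∀ x, q ≤ x → g x = w x := by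
  have pos : ∀ x ∈ Icc p q, 0 < γ * x + δ := fun x hx => by
    rcases le_total 0 γ with c | c <;> nlinarith [hx.1, hx.2]
  let f : ℝ → ℝ := fun x => if x ≤ p then u x else if x ≤ q then (α * x + β) / (γ * x + δ) else w x
  have f1 : ∀ x, x ≤ p → f x = u x := fun x hx => if_pos hx
  have f2 : ∀ x ∈ Icc p q, f x = (α * x + β) / (γ * x + δ) := fun x hx => by
    rcases hx.1.eq_or_lt with rfl | c
    · rw [f1 _ le_rfl, eq_div_iff h1.ne', hp]
    · exact (if_neg c.not_ge).trans (if_pos hx.2)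
  have f3 : ∀ x, q ≤ x → f x = w x := fun x hx => by
    rcases hx.eq_or_lt with rfl | c
    · rw [f2 _ ⟨hpq, le_rfl⟩, div_eq_iff h2.ne', hq]
    · exact (if_neg (hpq.trans_lt c).not_ge).trans (if_neg c.not_ge)
  have m : StrictMono f := by
    refine StrictMonoOn.Iic_union_Ici (a := p) (fun x hx y hy c => ?_) ?_
    · rw [f1 x hx, f1 y hy]
      exact u.strictMono c
    rw [← Icc_union_Ici_eq_Ici hpq]
    refine StrictMonoOn.union (c := q) (fun x hx y hy c => ?_) (fun x hx y hy c => ?_)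
      (isGreatest_Icc hpq) isLeast_Ici
    · rw [f2 x hx, f2 y hy, div_lt_div_iff₀ (pos x hx) (pos y hy)]
      nlinarith [mul_pos (sub_pos.2 c) (sub_pos.2 hd)]
    · rw [f3 x hx, f3 y hy]
      exact w.strictMono c
  refine ⟨m.orderIsoOfSurjective f fun y => ?_, f1, f2, f3⟩
  by_cases a : y ≤ u p
  · exact ⟨u.symm y, by rw [f1 _ (u.symm_apply_le.2 a), u.apply_symm_apply]⟩
  by_cases b : w q ≤ y
  · exact ⟨w.symm y, by rw [f3 _ (w.le_symm_apply.2 b), w.apply_symm_apply]⟩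
  have c : ContinuousOn f (Icc p q) := ContinuousOn.congr
    (ContinuousOn.div (by fun_prop) (by fun_prop) fun x hx => (pos x hx).ne') f2
  obtain ⟨x, -, hx⟩ := intermediate_value_Icc hpq c (a := p) (b := q)
    (show y ∈ Icc (f p) (f q) from ⟨by rw [f1 _ le_rfl]; linarith, by rw [f3 _ le_rfl]; linarith⟩)
  exact ⟨x, hx⟩

/-- upper triangular unipotent matrices -/
def up (z : ℝ) : SL(2, ℝ) := ⟨!![1, z; 0, 1], by simp [Matrix.det_fin_two]⟩

/-- lower triangular unipotent matrices -/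
def lo (z : ℝ) : SL(2, ℝ) := ⟨!![1, 0; z, 1], by simp [Matrix.det_fin_two]⟩

theorem sends_up (z x : ℝ) : Sends (up z) x (x + z) := by simp [Sends, up]

theorem mul_ap (M N : SL(2, ℝ)) (i j : Fin 2) : (M * N) i j = M i 0 * N 0 j + M i 1 * N 1 j := by
  simp only [Matrix.SpecialLinearGroup.coe_mul, Matrix.mul_apply, Fin.sum_univ_two]

theorem pr2_zero (z : ℝ) : pr2 z 0 = up z * lo z := by
  ext i j
  rw [mul_ap]
  fin_cases i <;> fin_cases j <;> simp [pr2, up, lo]

theorem pr2_one (z : ℝ) : pr2 z 1 = lo z * up z := by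
  ext i j
  rw [mul_ap]
  fin_cases i <;> fin_cases j <;> simp [pr2, up, lo, add_comm]

theorem monod_loc {A : Subring ℝ} (hA : A ≠ ⊥) : LocallyFree (Monod A) := by
  obtain ⟨a, ha, hb⟩ := SetLike.exists_of_lt hA.bot_lt
  have t0 : 0 < Int.fract a := (Int.fract_nonneg a).lt_of_ne' fun h =>
    hb (Subring.mem_bot.2 ⟨⌊a⌋, (sub_eq_zero.1 h).symm⟩)
  refine loc_of_pairs t0 (Int.fract_lt_one a) 1 fun n k => ?_
  have hz : Int.fract a ^ n ∈ A := pow_mem (sub_mem ha (intCast_mem A _)) n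
  have z0 : 0 < Int.fract a ^ n := pow_pos t0 n
  have z1 : Int.fract a ^ n ≤ 1 := pow_le_one₀ t0.le (Int.fract_lt_one a).le
  generalize Int.fract a ^ n = z at hz z0 z1
  have e2 : (2 : ℝ) ∈ A := ofNat_mem A 2
  have eu : ∀ y ∈ A, EntriesIn A (up y) := fun y hy i j => by
    fin_cases i <;> fin_cases j <;> simp [up, hy]
  have el : EntriesIn A (lo z) := fun i j => by
    fin_cases i <;> fin_cases j <;> simp [lo, hz]
  have hu : OrderIso.addRight z ∈ Monod A := Subgroup.subset_closure ⟨∅, by simp,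
    fun x _ => ⟨up z, eu z hz, .of_forall (sends_up z)⟩,
    .inr ⟨up z, eu z hz, .of_forall (sends_up z)⟩⟩
  obtain ⟨s, s0, s2⟩ : ∃ s : ℝ, 0 ≤ s ∧ z * (s * s) = z + 2 :=
    ⟨√(1 + 2 / z), Real.sqrt_nonneg _, by
      rw [Real.mul_self_sqrt (by positivity)]
      field_simp⟩
  have s1 : 1 < s := by
    by_contra c
    nlinarith [mul_le_one₀ (not_lt.1 c) s0 (not_lt.1 c)]
  have s3 : 0 < z * (1 - s) + 1 := by
    by_contra c
    have : z + 1 ≤ z * s := by linarith
    nlinarith [mul_self_le_mul_self (by positivity) this]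
  obtain ⟨g, g1, g2, g3⟩ := glue (OrderIso.addRight (-2)) (OrderIso.addRight (-2))
    (α := 1) (β := 0) (γ := z) (δ := 1) (p := 1 - s) (q := 1 + s) (by linarith) (by simp) s3
    (by positivity) (by rw [OrderIso.addRight_apply]; linear_combination s2)
    (by rw [OrderIso.addRight_apply]; linear_combination s2)
  have g4 : ∀ x ∈ Icc (1 - s) (1 + s), Sends (lo z) x (g x) := fun x hx => by
    have : 0 < z * x + 1 := by nlinarith [hx.1]
    rw [Sends, g2 x hx]
    exact div_mul_cancel₀ _ this.ne'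
  have g5 : ∀ x ∈ (Icc (1 - s) (1 + s))ᶜ, Sends (up (-2)) x (g x) := fun x hx => by
    rcases not_and_or.1 hx with c | c
    · rw [g1 x (not_le.1 c).le]
      exact sends_up _ _
    · rw [g3 x (not_le.1 c).le]
      exact sends_up _ _
  have hg : g ∈ Monod A := by
    refine Subgroup.subset_closure ⟨{1 - s, 1 + s}, fun x hx => ⟨up 2 * lo z, fun i j => ?_, ?_,
      ?_⟩, fun x hx => ?_,
      .inr ⟨_, eu _ (neg_mem e2), mem_of_superset isCompact_Icc.compl_mem_cocompact g5⟩⟩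
    · rw [mul_ap]
      exact add_mem (mul_mem (eu _ e2 _ _) (el _ _)) (mul_mem (eu _ e2 _ _) (el _ _))
    · rw [Hyperbolic, mul_ap, mul_ap, lt_abs]
      left
      simp [up, lo]
      linarith
    · simp only [Sends, mul_ap]
      simp [up, lo]
      simp only [Finset.mem_insert, Finset.mem_singleton] at hx
      rcases hx with rfl | rfl <;> linear_combination s2
    · simp only [Finset.mem_insert, Finset.mem_singleton, not_or] at hx
      by_cases c : x ∈ Icc (1 - s) (1 + s)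
      · exact ⟨_, el, mem_of_superset
          (Icc_mem_nhds (c.1.lt_of_ne' hx.1) (c.2.lt_of_ne hx.2)) g4⟩
      · exact ⟨_, eu _ (neg_mem e2),
          mem_of_superset (isClosed_Icc.isOpen_compl.mem_nhds c) g5⟩
  rw [inv_one, one_mul, mul_one]
  fin_cases k
  · exact ⟨_, mul_mem hu hg, fun x hx => (pr2_zero z).symm ▸
      sends_mul (sends_up z _) (g4 x ⟨by linarith [hx.1], by linarith [hx.2]⟩)⟩
  · exact ⟨_, mul_mem hg hu, fun x hx => (pr2_one z).symm ▸
      sends_mul (g4 (x + z) ⟨by linarith [hx.1], by linarith [hx.2]⟩) (sends_up z _)⟩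

/-- an element of the Lodha-Moore group maps the unit interval into itself by a Moebius map -/
def Re (α β γ δ : ℝ) : Prop := ∃ g ∈ LodhaMoore, ∀ x ∈ Icc (0 : ℝ) 1,
  g x ∈ Icc (0 : ℝ) 1 ∧ g x * (γ * x + δ) = α * x + β

theorem Re.mul {α β γ δ α' β' γ' δ' c a b e d : ℝ} (h : Re α β γ δ) (h' : Re α' β' γ' δ')
    (hc : c ≠ 0) (h1 : α * α' + β * γ' = c * a) (h2 : α * β' + β * δ' = c * b)
    (h3 : γ * α' + δ * γ' = c * e) (h4 : γ * β' + δ * δ' = c * d) : Re a b e d := by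
  obtain ⟨g, hg, k⟩ := h
  obtain ⟨g', hg', k'⟩ := h'
  refine ⟨_, mul_mem hg hg', fun x hx => ⟨(k _ (k' x hx).1).1, mul_left_cancel₀ hc ?_⟩⟩
  have a1 := (k _ (k' x hx).1).2
  have a2 := (k' x hx).2
  change c * (g (g' x) * _) = _
  linear_combination (γ' * x + δ') * a1 + (α - g (g' x) * γ) * a2 + x * h1 + h2 -
    g (g' x) * x * h3 - g (g' x) * h4

theorem re_base : Re 2 0 1 1 ∧ Re 1 0 (-1) 2 ∧ Re 1 0 1 1 ∧ Re 0 1 (-1) 2 := by
  obtain ⟨c, c1, c2, c3⟩ := glue (OrderIso.refl ℝ) (OrderIso.refl ℝ) (α := 2) (β := 0) (γ := 1)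
    (δ := 1) (p := 0) (q := 1) (by norm_num) (by norm_num) (by norm_num) (by norm_num) (by simp)
    (by norm_num)
  obtain ⟨e, e1, e2, e3⟩ := glue (OrderIso.refl ℝ) (OrderIso.addRight (1 / 2)) (α := 1) (β := 0)
    (γ := -1) (δ := 1) (p := 0) (q := 1 / 2) (by norm_num) (by norm_num) (by norm_num)
    (by norm_num) (by simp) (by norm_num)
  obtain ⟨b, b1, b2, b3⟩ := glue e (OrderIso.addRight 1) (α := 3) (β := -1)
    (γ := 1) (δ := 0) (p := 1 / 2) (q := 1) (by norm_num) (by norm_num) (by norm_num)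
    (by norm_num) (by rw [e3 _ le_rfl]; norm_num) (by norm_num)
  have hc : c ∈ LodhaMoore := Subgroup.subset_closure (.inr (.inr fun t => by
    unfold lmC
    split_ifs with h
    · rw [c2 t h]
      ring
    · rcases not_and_or.1 h with h | h
      · exact c1 t (not_le.1 h).le
      · exact c3 t (not_le.1 h).le))
  have hb : b ∈ LodhaMoore := Subgroup.subset_closure (.inr (.inl fun t => by
    unfold lmB
    split_ifs with h h' h''
    · rw [b1 t (by linarith), e1 t h]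
      rfl
    · rw [b1 t h', e2 t ⟨by linarith, h'⟩]
      ring
    · rw [b2 t ⟨by linarith, h''⟩]
      have : t ≠ 0 := fun c => h c.le
      rw [one_mul, add_zero]
      field_simp
      ring
    · exact b3 t (by linarith)))
  have ha : OrderIso.addRight (1 : ℝ) ∈ LodhaMoore := Subgroup.subset_closure (.inl fun _ => rfl)
  have inv : ∀ (g : ℝ ≃o ℝ) (x y : ℝ), g y = x → g⁻¹ x = y := fun g x y h => by
    rw [← h]
    exact g.symm_apply_apply y
  refine ⟨⟨c, hc, fun x hx => ?_⟩, ⟨_, inv_mem hc, fun x hx => ?_⟩, ⟨_, inv_mem hb, fun x hx => ?_⟩,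
    ⟨_, mul_mem (inv_mem hb) ha, fun x hx => ?_⟩⟩ <;> obtain ⟨x0, x1⟩ := id hx
  · rw [c2 x hx]
    exact ⟨⟨by positivity, (div_le_one (by positivity)).2 (by linarith)⟩,
      div_mul_cancel₀ _ (by positivity)⟩
  · have p : 0 < 2 - x := by linarith
    have m : x / (2 - x) ∈ Icc (0 : ℝ) 1 := ⟨by positivity, (div_le_one p).2 (by linarith)⟩
    rw [inv c x _ (by rw [c2 _ m]; field_simp; ring)]
    exact ⟨m, by field_simp; ring⟩
  · have m : x / (1 + x) ∈ Icc (0 : ℝ) (1 / 2) :=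
      ⟨by positivity, (div_le_iff₀ (by positivity)).2 (by linarith)⟩
    rw [inv b x _ (by rw [b1 _ m.2, e2 _ m]; field_simp; ring)]
    exact ⟨⟨m.1, by linarith [m.2]⟩, by field_simp; ring⟩
  · have p : 0 < 2 - x := by linarith
    have m : 1 / (2 - x) ∈ Icc (1 / 2 : ℝ) 1 :=
      ⟨one_div_le_one_div_of_le p (by linarith), (div_le_one p).2 (by linarith)⟩
    change b⁻¹ (x + 1) ∈ _ ∧ b⁻¹ (x + 1) * _ = _
    rw [inv b (x + 1) _ (by rw [b2 _ m]; field_simp; ring)]
    exact ⟨⟨by linarith [m.1], m.2⟩, by field_simp; ring⟩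

theorem lm_loc : LocallyFree LodhaMoore := by
  obtain ⟨c, c', v, u⟩ := re_base
  have key : ∀ n : ℕ, Re 1 0 ((1 / 2) ^ n) 1 ∧
      Re (1 - (1 / 2) ^ n) ((1 / 2) ^ n) (-(1 / 2) ^ n) (1 + (1 / 2) ^ n) := fun n => by
    induction n with
    | zero => exact ⟨by simpa using v, by simpa [one_add_one_eq_two] using u⟩
    | succ n ih =>
      rw [pow_succ]
      generalize (1 / 2 : ℝ) ^ n = z at ih
      exact ⟨(c.mul ih.1 one_ne_zero (one_mul _).symm (one_mul _).symm (one_mul _).symm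
          (one_mul _).symm).mul c' two_ne_zero (by ring) (by ring) (by ring) (by ring),
        (c'.mul ih.2 one_ne_zero (one_mul _).symm (one_mul _).symm (one_mul _).symm
          (one_mul _).symm).mul c two_ne_zero (by ring) (by ring) (by ring) (by ring)⟩
  refine loc_of_pairs (t := 1 / 2) (by norm_num) (by norm_num) (lo (-1)) fun n k => ?_
  obtain ⟨v, u⟩ := key n
  generalize (1 / 2 : ℝ) ^ n = z at u v
  suffices h : Re (((lo (-1))⁻¹ * pr2 z k * lo (-1)) 0 0) (((lo (-1))⁻¹ * pr2 z k * lo (-1)) 0 1)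
      (((lo (-1))⁻¹ * pr2 z k * lo (-1)) 1 0) (((lo (-1))⁻¹ * pr2 z k * lo (-1)) 1 1) from
    h.imp fun g hg => ⟨hg.1, fun x hx => (hg.2 x hx).2⟩
  have e : (lo (-1))⁻¹ = lo 1 := inv_eq_of_mul_eq_one_right (by
    ext i j
    rw [mul_ap]
    fin_cases i <;> fin_cases j <;> simp [lo])
  simp only [e, mul_ap]
  fin_cases k
  · refine u.mul v one_ne_zero ?_ ?_ ?_ ?_ <;> simp [lo, pr2] <;> ring
  · refine v.mul u one_ne_zero ?_ ?_ ?_ ?_ <;> simp [lo, pr2] <;> ring

end Pool.Agent.P.MP_95bcfc_an.Proj
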